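import Pool.Agent.P.MP_f434f5_co.Defs

/-!
`k`-neighborly reorientations.
-/

namespace Pool.Agent.P.MP_f434f5_co

/-- Every set of at most `k` elements (the empty set included: acyclicity) is the zero set of a
covector that is positive elsewhere, that is, a face of the matroid polytope. -/
def KNeighborly {E : Type*} (k : ℕ) (L : Set (E → SignType)) : Prop :=
  ∀ F : Finset E, F.card ≤ k → ∃ X ∈ L, (∀ e ∈ F, X e = 0) ∧ ∀ e ∉ F, X e = 1

/-- The number of subsets `A` whose reorientation is `k`-neighborly. -/
noncomputable def numKNeighborly {E : Type*} [DecidableEq E] (k : ℕ) (L : Set (E → SignType)) :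
    ℕ :=
  Set.ncard {A : Finset E | KNeighborly k (reorient A L)}

end Pool.Agent.P.MP_f434f5_co
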