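import Pool.Agent.P.MP_f434f5_co.Main
import Pool.Agent.P.MP_f434f5_co.K.Defs

/-!
The Fourier argument for balls of radius `k`.
-/

namespace Pool.Agent.P.MP_f434f5_co

open Finset

variable {E : Type*} [Fintype E] [DecidableEq E]

/-- The ball of radius `j` round every point of the support lies in `T`. -/
def Supp (T : Set (Finset E)) (j : ℕ) (g : Finset E → ℚ) : Prop :=
  ∀ A, g A ≠ 0 → ∀ R : Finset E, R.card ≤ j → symmDiff A R ∈ T

omit [Fintype E] in
lemma Supp.mono {T : Set (Finset E)} {i j : ℕ} {g : Finset E → ℚ} (h : Supp T j g) (hij : i ≤ j) :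
    Supp T i g := fun A hA R hR => h A hA R (hR.trans hij)

omit [Fintype E] in
lemma Supp.mem {T : Set (Finset E)} {j : ℕ} {g : Finset E → ℚ} (h : Supp T j g) (A : Finset E)
    (hA : g A ≠ 0) : A ∈ T := by
  have := h A hA ∅ (by simp)
  rwa [← Finset.bot_eq_empty, symmDiff_bot] at this

omit [Fintype E] in
lemma Supp.flip {T : Set (Finset E)} {j : ℕ} {g : Finset E → ℚ} (h : Supp T (j + 1) g) (i : E) :
    Supp T j fun A => g (flip i A) := by
  intro A hA R hR
  have h1 : (symmDiff {i} R).card ≤ j + 1 := by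
    have h2 := card_le_card (symmDiff_subset_union (s := {i}) (t := R))
    have h3 := card_union_le {i} R
    rw [card_singleton] at h3
    omega
  have := h _ hA _ h1
  unfold MP_f434f5_co.flip at this
  rwa [symmDiff_assoc, symmDiff_symmDiff_cancel_left] at this

omit [Fintype E] in
lemma Supp.lin {T : Set (Finset E)} {j : ℕ} {g h : Finset E → ℚ} (hg : Supp T j g)
    (hh : Supp T j h) (c : ℚ) : Supp T j fun A => g A + c * h A := by
  intro A hA
  by_cases h1 : g A = 0
  · refine hh A fun h2 => hA ?_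
    simp [h1, h2]
  · exact hg A h1

lemma fc_zero (K : Finset E) : fc (0 : Finset E → ℚ) K = 0 := by
  unfold fc; simp

/-- One step of the Laplacian removes one degree. -/
lemma lap {T : Set (Finset E)} {j : ℕ} {g : Finset E → ℚ} (h : Supp T (j + 1) g) (d : ℕ) :
    ∃ g', Supp T j g' ∧ ∀ K, fc g' K = 2 * ((K.card : ℚ) - d) * fc g K := by
  refine ⟨fun A => (∑ i, (g A + (-1) * g (flip i A))) + (-(2 * d)) * g A, ?_, fun K => ?_⟩
  · refine Supp.lin ?_ (h.mono (by omega)) _
    intro A hA
    obtain ⟨i, -, hi⟩ := Finset.exists_ne_zero_of_sum_ne_zero hA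
    exact (h.mono (Nat.le_succ j)).lin (h.flip i) (-1) A hi
  · rw [fc_add, fc_smul, fc_sum (fun i A => g A + (-1) * g (flip i A))]
    have : ∀ i, fc (fun A => g A + (-1) * g (flip i A)) K = if i ∈ K then 2 * fc g K else 0 := by
      intro i
      rw [fc_add, fc_smul, fc_flip]
      split_ifs <;> ring
    simp_rw [this]
    rw [Finset.sum_ite_mem, Finset.univ_inter, Finset.sum_const, nsmul_eq_mul]
    ring

lemma isolate {T : Set (Finset E)} (S : Finset ℕ) : ∀ {j : ℕ} {g : Finset E → ℚ},
    Supp T (j + S.card) g →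
      ∃ g', Supp T j g' ∧ ∀ K, fc g' K = 0 ↔ (K.card ∈ S ∨ fc g K = 0) := by
  induction S using Finset.induction_on with
  | empty => exact fun h => ⟨_, h, by simp⟩
  | insert d S hd ih =>
    intro j g h
    rw [card_insert_of_notMem hd, ← add_assoc] at h
    obtain ⟨g1, h1, h2⟩ := lap h d
    obtain ⟨g2, h3, h4⟩ := ih h1
    refine ⟨g2, h3, fun K => ?_⟩
    rw [h4, h2, mem_insert, mul_eq_zero, mul_eq_zero, sub_eq_zero, Nat.cast_inj]
    simp only [OfNat.ofNat_ne_zero, false_or]
    tauto

/-- Keep only the coefficients with a prescribed trace on `J`. -/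
lemma project {T : Set (Finset E)} (K₀ J : Finset E) : ∀ {j : ℕ} {g : Finset E → ℚ},
    Supp T (j + J.card) g →
      ∃ g', Supp T j g' ∧ ∀ K, fc g' K = 0 ↔ ((∃ i ∈ J, ¬ (i ∈ K ↔ i ∈ K₀)) ∨ fc g K = 0) := by
  induction J using Finset.induction_on with
  | empty => exact fun h => ⟨_, h, by simp⟩
  | insert i J hi ih =>
    intro j g h
    rw [card_insert_of_notMem hi, ← add_assoc] at h
    obtain ⟨g2, h3, h4⟩ := ih
      ((h.mono (Nat.le_succ _)).lin (h.flip i) (if i ∈ K₀ then -1 else 1))
    refine ⟨g2, h3, fun K => ?_⟩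
    have e : fc (fun A => g A + (if i ∈ K₀ then -1 else 1) * g (flip i A)) K
        = if (i ∈ K ↔ i ∈ K₀) then 2 * fc g K else 0 := by
      rw [fc_add, fc_smul, fc_flip]
      by_cases h1 : i ∈ K <;> by_cases h2 : i ∈ K₀ <;> simp [h1, h2] <;> ring
    rw [h4, e]
    by_cases h1 : (i ∈ K ↔ i ∈ K₀) <;> simp [h1]

/-- A function of pure degree vanishes when a shift sends its coefficients above degree `r`. -/
lemma kill {T : Set (Finset E)} {r : ℕ} (hT : VC T r) {g : Finset E → ℚ} (K J M : Finset E)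
    (h : Supp T J.card g)
    (hM : ∀ K', (∀ i ∈ J, (i ∈ K' ↔ i ∈ K)) → fc g K' ≠ 0 → r < (symmDiff K' M).card) :
    fc g K = 0 := by
  obtain ⟨g1, h1, h2⟩ := project K J (j := 0) (by rwa [zero_add])
  have hz := factA hT (fun A => ch M A * g1 A)
    (fun A hA => h1.mem A (right_ne_zero_of_mul hA)) (by
      intro N hN
      rw [fc_mul_ch, h2]
      by_contra hc
      push Not at hc
      have := hM _ hc.1 hc.2
      rw [symmDiff_symmDiff_cancel_right] at this
      omega)
  have h3 := fc_mul_ch g1 M (symmDiff K M)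
  rw [symmDiff_symmDiff_cancel_right, hz, fc_zero] at h3
  simpa using (h2 K).1 h3.symm

lemma step {T : Set (Finset E)} {r k : ℕ} (hT : VC T r) {g : Finset E → ℚ} (h : Supp T k g)
    (S : Finset ℕ) (d t : ℕ) (ht : t + S.card ≤ k)
    (hd : (t ≤ d ∧ r + d < Fintype.card E + t) ∨ (d + t ≤ Fintype.card E ∧ r < d + t))
    (hS : ∀ K, fc g K ≠ 0 → K.card = d ∨ K.card ∈ S) : ∀ K, fc g K ≠ 0 → K.card ∈ S := by
  obtain ⟨g1, h1, h2⟩ := isolate S (h.mono ht)
  have hp : ∀ K, fc g1 K ≠ 0 → K.card = d := by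
    intro K hK
    rw [Ne, h2, not_or] at hK
    exact (hS K hK.2).resolve_right hK.1
  intro K hK
  by_contra hKS
  have hKd := (hS K hK).resolve_right hKS
  suffices fc g1 K = 0 by rw [h2] at this; tauto
  rcases hd with ⟨h3, h4⟩ | ⟨h3, h4⟩
  · obtain ⟨J, hJ, hJc⟩ := Finset.exists_subset_card_eq (s := K) (n := t) (by omega)
    refine kill hT K J Jᶜ (hJc ▸ h1) fun K' h5 h6 => ?_
    have e : symmDiff K' Jᶜ = J ∪ K'ᶜ := by
      ext x
      have := h5 x
      have := @hJ x
      simp only [mem_symmDiff, mem_compl, mem_union]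
      tauto
    have hdis : Disjoint J K'ᶜ := by
      rw [Finset.disjoint_left]
      intro x hx
      simpa using (h5 x hx).2 (hJ hx)
    have := card_le_univ K'
    rw [e, card_union_of_disjoint hdis, card_compl, hp K' h6, hJc]
    rw [hp K' h6] at this
    omega
  · obtain ⟨J, hJ, hJc⟩ := Finset.exists_subset_card_eq (s := Kᶜ) (n := t)
      (by rw [card_compl]; omega)
    refine kill hT K J J (hJc ▸ h1) fun K' h5 h6 => ?_
    have hdis : Disjoint K' J := by
      rw [Finset.disjoint_right]
      intro x hx hx'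
      exact mem_compl.1 (hJ hx) ((h5 x hx).1 hx')
    rw [hdis.symmDiff_eq_sup, sup_eq_union, card_union_of_disjoint hdis, hp K' h6, hJc]
    exact h4

/-- The degrees still possible after `a` low and `b` high degrees have been removed. -/
def degs (r k a b : ℕ) : Finset ℕ := (Ico a (k - b)).image fun i => r + 1 - 2 * k + 2 * i

lemma card_degs (r k a b : ℕ) : (degs r k a b).card ≤ k - b - a := by
  simpa [degs] using card_image_le (s := Ico a (k - b)) (f := fun i => r + 1 - 2 * k + 2 * i)

lemma mem_degs {r k a b d : ℕ} :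
    d ∈ degs r k a b ↔ ∃ i, (a ≤ i ∧ i < k - b) ∧ r + 1 - 2 * k + 2 * i = d := by
  simp [degs]

theorem coreK {T : Set (Finset E)} {r k : ℕ} (hT : VC T r) (hr : 2 * k + 1 ≤ r)
    (hn : 2 * (r - k) + 1 ≤ Fintype.card E) {g : Finset E → ℚ} (h : Supp T k g)
    (h0 : ∀ K : Finset E, K.card + 2 * k < r ∨ Even (K.card + r) → fc g K = 0) : g = 0 := by
  have hall : ∀ a, ∀ K, fc g K ≠ 0 → K.card ∈ degs r k a a := by
    intro a
    induction a with
    | zero =>
      obtain ⟨g1, h1, h2⟩ := isolate (degs r k 0 0) (j := 0)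
        (h.mono (by have := card_degs r k 0 0; omega))
      have hz := factA hT g1 h1.mem (by
        intro K hK
        rw [h2]
        by_contra hc
        push Not at hc
        have h3 := mt (h0 K) hc.2
        rw [not_or, Nat.not_even_iff_odd] at h3
        obtain ⟨h3, c, h4⟩ := h3
        exact hc.1 (mem_degs.2 ⟨(K.card + 2 * k - r - 1) / 2, by omega, by omega⟩))
      intro K hK
      exact ((h2 K).1 (by rw [hz, fc_zero])).resolve_right hK
    | succ a ih =>
      have h1 : ∀ K, fc g K ≠ 0 → K.card ∈ degs r k (a + 1) a := by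
        by_cases hk : k ≤ 2 * a
        · intro K hK
          obtain ⟨i, h1, -⟩ := mem_degs.1 (ih K hK)
          omega
        refine step hT h _ (r + 1 - 2 * k + 2 * a) (2 * a + 1)
          (by have := card_degs r k (a + 1) a; omega) (Or.inl ⟨by omega, by omega⟩) fun K hK => ?_
        obtain ⟨i, h1, h2⟩ := mem_degs.1 (ih K hK)
        by_cases hi : i = a
        · exact Or.inl (by rw [← h2, hi])
        · exact Or.inr (mem_degs.2 ⟨i, by omega, h2⟩)
      by_cases hk : k ≤ 2 * a + 1
      · intro K hK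
        obtain ⟨i, h1, -⟩ := mem_degs.1 (h1 K hK)
        omega
      refine step hT h _ (r - 1 - 2 * a) (2 * a + 2)
        (by have := card_degs r k (a + 1) (a + 1); omega) (Or.inr ⟨by omega, by omega⟩)
        fun K hK => ?_
      obtain ⟨i, h2, h3⟩ := mem_degs.1 (h1 K hK)
      by_cases hi : i = k - a - 1
      · exact Or.inl (by omega)
      · exact Or.inr (mem_degs.2 ⟨i, by omega, h3⟩)
  refine eq_zero_of_fc g fun K => ?_
  by_contra hK
  obtain ⟨i, h1, -⟩ := mem_degs.1 (hall k K hK)
  omega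

theorem card_half_leK {T : Set (Finset E)} {r k : ℕ} (hT : VC T r) (hr : 2 * k + 1 ≤ r)
    (hn : 2 * (r - k) + 1 ≤ Fintype.card E) (U : Finset (Finset E))
    (hU : ∀ A ∈ U, ∀ R : Finset E, R.card ≤ k → symmDiff A R ∈ T) (hUc : ∀ A ∈ U, Aᶜ ∈ U)
    (e₀ : E) : (U.filter fun A => e₀ ∉ A).card ≤ (small e₀ (r - 2 * k)).card := by
  classical
  set U' := U.filter fun A => e₀ ∉ A with hU'
  let ext : (U' → ℚ) → Finset E → ℚ := fun v A => if h : A ∈ U' then v ⟨A, h⟩ else 0
  let Φ : (U' → ℚ) →ₗ[ℚ] (small e₀ (r - 2 * k) → ℚ) :=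
    { toFun := fun v K => fc (ext v) K.1
      map_add' := by
        intro v w
        funext K
        have : ext (v + w) = fun A => ext v A + ext w A := by
          funext A; simp only [ext]; split_ifs <;> simp
        simp only [this, fc_add, Pi.add_apply]
      map_smul' := by
        intro c v
        funext K
        have : ext (c • v) = fun A => c * ext v A := by
          funext A; simp only [ext]; split_ifs <;> simp
        simp only [this, fc_smul, Pi.smul_apply, smul_eq_mul, RingHom.id_apply] }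
  have hinj : Function.Injective Φ := by
    rw [injective_iff_map_eq_zero]
    intro v hv
    set g := ext v with hg
    have hsupp : ∀ A, g A ≠ 0 → A ∈ U' := by
      intro A hA
      by_contra h
      apply hA
      simp only [hg, ext, dif_neg h]
    have hk : ∀ K : Finset E, e₀ ∉ K → K.card < r - 2 * k → fc g K = 0 := by
      intro K h1 h2
      have hK : K ∈ small e₀ (r - 2 * k) := by simp only [small, mem_filter, mem_univ]; tauto
      exact congrFun hv ⟨K, hK⟩
    have herase : ∀ K : Finset E, fc g K = fc g (K.erase e₀) := by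
      intro K
      unfold fc
      refine Finset.sum_congr rfl fun A _ => ?_
      by_cases hA : g A = 0
      · simp [hA]
      have h1 : e₀ ∉ A := (mem_filter.mp (hsupp A hA)).2
      congr 1
      unfold ch
      rw [Finset.prod_erase]
      simp [sg, h1]
    have hk' : ∀ K : Finset E, K.card < r - 2 * k → fc g K = 0 := by
      intro K h2
      rw [herase]
      exact hk _ (by simp) (lt_of_le_of_lt (card_erase_le) h2)
    have hz := coreK hT hr hn (g := fun A => g A + (-(-1) ^ r) * g Aᶜ)
      (Supp.lin (fun A hA => hU A (mem_filter.mp (hsupp _ hA)).1) (fun A hA => by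
        have := hUc _ (mem_filter.mp (hsupp _ hA)).1
        rw [compl_compl] at this
        exact hU A this) _)
      (by
        intro K h1
        rw [fc_add, fc_smul, fc_compl]
        rcases h1 with h1 | h1
        · rw [hk' K (by omega)]; ring
        · have h2 := h1.neg_one_pow (α := ℚ)
          rw [pow_add] at h2
          linear_combination (- fc g K) * h2)
    funext ⟨A, hA⟩
    have h1 := congrFun hz A
    have h2 : g Aᶜ = 0 := by
      by_contra h2
      have h3 := (mem_filter.mp (hsupp _ h2)).2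
      have h4 := (mem_filter.mp hA).2
      exact h3 (by simpa using h4)
    simp only [h2, mul_zero, add_zero, Pi.zero_apply] at h1
    simp only [hg, ext, dif_pos hA] at h1
    simpa using h1
  have := LinearMap.finrank_le_finrank_of_injective hinj
  simpa using this

theorem card_leK {T : Set (Finset E)} {r k : ℕ} (hT : VC T r) (hr : 2 * k + 1 ≤ r)
    (hn : 2 * (r - k) + 1 ≤ Fintype.card E) (U : Finset (Finset E))
    (hU : ∀ A ∈ U, ∀ R : Finset E, R.card ≤ k → symmDiff A R ∈ T) (hUc : ∀ A ∈ U, Aᶜ ∈ U) :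
    U.card ≤ 2 * ∑ j ∈ range (r - 2 * k), (Fintype.card E - 1).choose j := by
  obtain ⟨e₀⟩ : Nonempty E := Fintype.card_pos_iff.mp (by omega)
  have h1 := card_half_leK hT hr hn U hU hUc e₀
  rw [card_small] at h1
  have h2 : (U.filter fun A => ¬ (e₀ ∉ A)).card ≤ (U.filter fun A => e₀ ∉ A).card := by
    refine Finset.card_le_card_of_injOn (fun A => Aᶜ) ?_ ?_
    · intro A hA
      rw [mem_coe, mem_filter] at hA ⊢
      exact ⟨hUc A hA.1, by simpa using hA.2⟩
    · intro A _ B _ h
      exact compl_injective h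
  have h3 := Finset.card_filter_add_card_filter_not (s := U) (fun A => e₀ ∉ A)
  omega

omit [Fintype E] in
lemma kneighborly_iff (k : ℕ) (L : Set (E → SignType)) (A : Finset E) :
    KNeighborly k (reorient A L) ↔ ∀ F : Finset E, F.card ≤ k →
      ∃ X ∈ L, (∀ e ∈ F, X e = 0) ∧ ∀ e ∉ F, X e = sv A e := by
  have key : ∀ (X : E → SignType) (f : E),
      ((if f ∈ A then - X f else X f) = 1 ↔ X f = sv A f) := by
    intro X f
    unfold sv
    split_ifs
    · cases X f <;> decide
    · rfl
  have key0 : ∀ (X : E → SignType) (f : E), ((if f ∈ A then - X f else X f) = 0 ↔ X f = 0) := by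
    intro X f
    split_ifs <;> simp
  unfold KNeighborly reorient
  refine forall_congr' fun F => forall_congr' fun _ => ⟨?_, ?_⟩
  · rintro ⟨Y, ⟨Z, hZ, rfl⟩, h3, h4⟩
    exact ⟨Z, hZ, fun e he => (key0 Z e).1 (h3 e he), fun e he => (key Z e).1 (h4 e he)⟩
  · rintro ⟨X, hX, h3, h4⟩
    exact ⟨_, ⟨X, hX, rfl⟩, fun e he => (key0 X e).2 (h3 e he),
      fun e he => (key X e).2 (h4 e he)⟩

omit [Fintype E] in
lemma ball_of_kneighborly {k : ℕ} {L : Set (E → SignType)} (hL : IsOM L) {A : Finset E}
    (hA : KNeighborly k (reorient A L)) (R : Finset E) (hR : R.card ≤ k) :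
    sv (symmDiff A R) ∈ L := by
  rw [kneighborly_iff] at hA
  obtain ⟨Y, hY, -, h0⟩ := hA ∅ (by simp)
  obtain ⟨X, hX, h1, h2⟩ := hA R hR
  have h3 := hL.2.2.1 X hX _ (hL.2.1 _ hY)
  have h4 : comp X (fun e => - Y e) = sv (symmDiff A R) := by
    funext f
    unfold comp
    by_cases hf : f ∈ R
    · rw [if_pos (h1 f hf)]
      simp only [h0 f (by simp)]
      unfold sv
      by_cases h : f ∈ A <;> simp [h, hf, mem_symmDiff]
    · have h5 : X f ≠ 0 := by
        rw [h2 f hf]; unfold sv; split_ifs <;> decide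
      rw [if_neg h5, h2 f hf]
      unfold sv
      simp [mem_symmDiff, hf]
  rwa [h4] at h3

theorem upperK {L : Set (E → SignType)} (hL : IsOM L) {r k : ℕ} (hrk : HasRank L r)
    (hr : 2 * k + 1 ≤ r) (hn : 2 * (r - k) + 1 ≤ Fintype.card E) :
    numKNeighborly k L ≤ 2 * ∑ j ∈ range (r - 2 * k), (Fintype.card E - 1).choose j := by
  classical
  unfold numKNeighborly
  rw [Set.ncard_eq_toFinset_card']
  refine le_trans (card_le_card fun A hA => ?_) (card_leK (vc_of_rank hL hrk) hr hn
    (univ.filter fun A => ∀ R : Finset E, R.card ≤ k → sv (symmDiff A R) ∈ L)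
    (fun A hA => (mem_filter.1 hA).2) fun A hA => ?_)
  · rw [Set.mem_toFinset, Set.mem_ofPred_eq] at hA
    exact mem_filter.2 ⟨mem_univ _, ball_of_kneighborly hL hA⟩
  · refine mem_filter.2 ⟨mem_univ _, fun R hR => ?_⟩
    have h1 := hL.2.1 _ ((mem_filter.1 hA).2 R hR)
    have h2 : sv (symmDiff Aᶜ R) = fun e => - sv (symmDiff A R) e := by
      funext e; unfold sv
      by_cases h : e ∈ A <;> by_cases h' : e ∈ R <;> simp [h, h', mem_symmDiff]
    rwa [h2]

open Polynomial in
lemma altSet_kneighborly {r n k : ℕ} (b : Bool) (K : Finset (Fin n)) (hK : K.card < r - 2 * k) :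
    KNeighborly k (reorient (altSet b K) (alternating r n)) := by
  rw [kneighborly_iff]
  set q : ℝ[X] := ∏ k ∈ K, (X - C ((k.val : ℝ) - 1 / 2)) with hq
  set p : ℝ[X] := C (if b then -1 else 1) * q with hp
  have hqd : q.natDegree = K.card := by
    rw [hq, Polynomial.natDegree_prod_of_monic _ _ fun k _ => monic_X_sub_C _]
    simp only [natDegree_X_sub_C, Finset.sum_const, smul_eq_mul, mul_one]
  have hpd : p.natDegree ≤ K.card := by
    rw [← hqd]; exact natDegree_C_mul_le _ _
  have hs : ∀ i : Fin n, SignType.sign (p.eval (i.val : ℝ)) = sv (altSet b K) i := by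
    intro i
    rw [hp, eval_mul, sign_mul, hq, sign_altPoly, eval_C]
    unfold sv altSet
    rcases Nat.even_or_odd (K.filter fun k => i < k).card with h | h
    · have h' := Nat.not_odd_iff_even.mpr h
      cases b <;> simp [h.neg_one_pow, h']
    · cases b <;> simp [h.neg_one_pow, h]
  intro F hF
  set w : ℝ[X] := ∏ e ∈ F, (X - C (e.val : ℝ)) with hw
  have hwd : w.natDegree = F.card := by
    rw [hw, Polynomial.natDegree_prod_of_monic _ _ fun k _ => monic_X_sub_C _]
    simp only [natDegree_X_sub_C, Finset.sum_const, smul_eq_mul, mul_one]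
  refine ⟨_, poly_mem (n := n) (p * w ^ 2) (r := r) ?_, fun e he => ?_, fun f hf => ?_⟩
  · have h1 := natDegree_mul_le (p := p) (q := w ^ 2)
    rw [natDegree_pow, hwd] at h1
    omega
  · have : w.eval (e.val : ℝ) = 0 := by
      rw [hw, eval_prod]
      exact Finset.prod_eq_zero he (by simp)
    simp [this]
  · have h1 : w.eval (f.val : ℝ) ≠ 0 := by
      rw [hw, eval_prod]
      refine Finset.prod_ne_zero_iff.2 fun e he => ?_
      simp only [eval_sub, eval_X, eval_C, sub_ne_zero]
      intro h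
      exact hf ((Fin.ext (by exact_mod_cast h) : f = e) ▸ he)
    have h2 : SignType.sign (eval (f.val : ℝ) (w ^ 2)) = 1 := by
      apply sign_pos
      rw [eval_pow]
      positivity
    rw [eval_mul, sign_mul, h2, mul_one, hs]

theorem lowerK {r n k : ℕ} (hn : 1 ≤ n) :
    2 * ∑ j ∈ range (r - 2 * k), (n - 1).choose j ≤ numKNeighborly k (alternating r n) := by
  classical
  obtain ⟨m, rfl⟩ : ∃ m, n = m + 1 := ⟨n - 1, by omega⟩
  unfold numKNeighborly
  rw [Set.ncard_eq_toFinset_card']
  have h1 := card_small (0 : Fin (m + 1)) (r - 2 * k)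
  rw [Fintype.card_fin] at h1
  rw [← h1]
  have h2 : ((Finset.univ : Finset Bool) ×ˢ small (0 : Fin (m + 1)) (r - 2 * k)).card
      = 2 * (small (0 : Fin (m + 1)) (r - 2 * k)).card := by
    rw [Finset.card_product]; simp
  rw [← h2]
  refine Finset.card_le_card_of_injOn (fun q => altSet q.1 q.2) ?_ ?_
  · rintro ⟨b, K⟩ hq
    rw [mem_coe, Finset.mem_product] at hq
    have h3 := (mem_filter.mp hq.2).2.2
    rw [mem_coe, Set.mem_toFinset, Set.mem_ofPred_eq]
    exact altSet_kneighborly b K h3
  · rintro ⟨b, K⟩ hq ⟨b', K'⟩ hq' h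
    rw [mem_coe, Finset.mem_product] at hq hq'
    obtain ⟨h3, h4⟩ := altSet_inj b b' K K' (mem_filter.mp hq.2).2.1 (mem_filter.mp hq'.2).2.1 h
    rw [h3, h4]

end Pool.Agent.P.MP_f434f5_co
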